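import Pool.Agent.helper7.WB.RDefs
import Pool.Agent.helper19.WB.B1a
import Pool.Agent.helper19.WB.B3a
import Pool.Agent.helper26.WB.B3b

/-!
# MP_7b8095_gt, module R2-3: products of transition elements along a chain are close to `1`
-/

set_option autoImplicit false
open Matrix MeasureTheory

namespace Pool.Agent.helper7.WB
open Pool.Agent.helper21.WB

namespace R23

theorem single {P : Type} {q q' : P → GLI} {D ρ : ℝ} (h : MF q q' D ρ) (σ τ : P)
    (hd : gd (q σ) (q τ) ≤ D / 2) :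
    sm (act (q σ) 0) ((Tr q q' σ)⁻¹ * Tr q q' τ) ≤ ρ * Real.sqrt (1 + 4 * Real.cosh (D / 2) ^ 2) := by
  have hs := h.inG σ
  have ht := h.inG τ
  rw [sm_frame hs]
  set a : GLI := (q σ)⁻¹ * q τ with ha
  set b : GLI := (q' σ)⁻¹ * q' τ with hb
  have haG : InG a := hs.inv.mul ht
  have e1 : (q σ)⁻¹ * ((Tr q q' σ)⁻¹ * Tr q q' τ) * q σ = b * a⁻¹ := by
    simp only [Tr, ha, hb]; group
  rw [e1]
  have e2 : (b * a⁻¹ : GLI).val - 1 = (b.val - a.val) * (a⁻¹ : GLI).val := by
    rw [Units.val_mul, sub_mul]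
    congr 1
    exact (Units.mul_inv a).symm
  rw [e2]
  have c1 : fn (b.val - a.val) ≤ ρ := by
    have := h.close σ τ hd
    rw [← fn_neg, neg_sub]
    exact this
  have hρ : 0 ≤ ρ := le_trans (fn_nonneg _) c1
  have c2 : fn (a⁻¹ : GLI).val ≤ Real.sqrt (1 + 4 * Real.cosh (D / 2) ^ 2) := by
    rw [fn_inv_of_inG haG]
    apply Real.le_sqrt_of_sq_le
    rw [fn_sq_of_inG haG]
    have g1 : Real.cosh (gd (q σ) (q τ)) = a.val o o := by
      rw [gd_eq hs ht, cosh_hd, ← gch_eq hs ht]; rfl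
    have g0 : 0 ≤ gd (q σ) (q τ) := by rw [gd_eq hs ht]; exact hd_nonneg _ _
    have g2 : Real.cosh (gd (q σ) (q τ)) ≤ Real.cosh (D / 2) := by
      rw [Real.cosh_le_cosh, abs_of_nonneg g0, abs_of_nonneg (le_trans g0 hd)]
      exact hd
    have g3 := Real.one_le_cosh (gd (q σ) (q τ))
    rw [← g1]
    nlinarith
  calc fn ((b.val - a.val) * (a⁻¹ : GLI).val) ≤ fn (b.val - a.val) * fn (a⁻¹ : GLI).val := fn_mul _ _
    _ ≤ ρ * Real.sqrt (1 + 4 * Real.cosh (D / 2) ^ 2) :=
      mul_le_mul c1 c2 (fn_nonneg _) hρ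

end R23

theorem chain_close (D L ε : ℝ) (m : ℕ) (hε : 0 < ε) : ∃ ρ₀ : ℝ, 0 < ρ₀ ∧
    ∀ {P : Type} (q q' : P → GLI) (ρ : ℝ), ρ ≤ ρ₀ → MF q q' D ρ → ∀ c : ℕ → P,
      (∀ k, k < m → gd (q (c k)) (q (c (k + 1))) ≤ D / 2) → ∀ x, hd x (act (q (c 0)) 0) ≤ L →
      sm x ((Tr q q' (c 0))⁻¹ * Tr q q' (c m)) ≤ ε := by
  set C := Real.sqrt (1 + 4 * Real.cosh (D / 2) ^ 2) with hC
  have hCpos : 0 < C := Real.sqrt_pos.2 (by positivity)
  set E := Real.exp (2 * (L + m * (D / 2))) * C with hE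
  have hEpos : 0 < E := by positivity
  have hlog : 0 < Real.log (1 + ε) := Real.log_pos (by linarith)
  refine ⟨Real.log (1 + ε) / ((m + 1) * E), by positivity, ?_⟩
  intro P q q' ρ hρ hMF c hc x hx
  set a := Real.log (1 + ε) / (m + 1) with ha
  have ha0 : 0 < a := by positivity
  have hρE : ρ * E ≤ a := by
    calc ρ * E ≤ Real.log (1 + ε) / ((m + 1) * E) * E := by gcongr
      _ = a := by rw [ha]; field_simp
  -- the base points stay close
  have hdist : ∀ k, k ≤ m → hd x (act (q (c k)) 0) ≤ L + k * (D / 2) := by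
    intro k
    induction k with
    | zero => intro _; simpa using hx
    | succ k ih =>
      intro hk
      have h1 := ih (by omega)
      have h2 := hc k (by omega)
      rw [gd_eq (hMF.inG _) (hMF.inG _)] at h2
      have h3 := hd_triangle x (act (q (c k)) 0) (act (q (c (k + 1))) 0)
      push_cast
      linarith
  have hstep : ∀ k, k < m → sm x ((Tr q q' (c k))⁻¹ * Tr q q' (c (k + 1))) ≤ a := by
    intro k hk
    have h1 := R23.single hMF (c k) (c (k + 1)) (hc k hk)
    have h2 := sm_lip (act (q (c k)) 0) x ((Tr q q' (c k))⁻¹ * Tr q q' (c (k + 1)))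
    have hD : 0 ≤ D / 2 := by
      have := hc k hk
      rw [gd_eq (hMF.inG _) (hMF.inG _)] at this
      exact le_trans (hd_nonneg _ _) this
    have hρ0 : 0 ≤ ρ := le_trans (fn_nonneg _) (hMF.close (c k) (c (k + 1)) (hc k hk))
    have h3 : hd (act (q (c k)) 0) x ≤ L + m * (D / 2) := by
      rw [hd_comm]
      refine le_trans (hdist k hk.le) ?_
      have : (k : ℝ) ≤ m := by exact_mod_cast hk.le
      have := mul_le_mul_of_nonneg_right this hD
      linarith
    calc sm x ((Tr q q' (c k))⁻¹ * Tr q q' (c (k + 1)))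
        ≤ Real.exp (2 * hd (act (q (c k)) 0) x) *
          sm (act (q (c k)) 0) ((Tr q q' (c k))⁻¹ * Tr q q' (c (k + 1))) := h2
      _ ≤ Real.exp (2 * (L + m * (D / 2))) * (ρ * C) := by
        apply mul_le_mul _ h1 (nrm_nonneg _ _) (Real.exp_pos _).le
        exact Real.exp_le_exp.2 (by linarith)
      _ = ρ * E := by rw [hE]; ring
      _ ≤ a := hρE
  have hprod : ∀ k, k ≤ m → 1 + sm x ((Tr q q' (c 0))⁻¹ * Tr q q' (c k)) ≤ (1 + a) ^ k := by
    intro k
    induction k with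
    | zero =>
      intro _
      rw [inv_mul_cancel, (sm_eq_zero x 1).2 rfl]; simp
    | succ k ih =>
      intro hk
      have h1 := ih (by omega)
      have h2 := hstep k (by omega)
      have e : (Tr q q' (c 0))⁻¹ * Tr q q' (c (k + 1)) =
          ((Tr q q' (c 0))⁻¹ * Tr q q' (c k)) * ((Tr q q' (c k))⁻¹ * Tr q q' (c (k + 1))) := by
        group
      rw [e]
      have h3 := sm_mul (γ := (Tr q q' (c 0))⁻¹ * Tr q q' (c k))
        (δ := (Tr q q' (c k))⁻¹ * Tr q q' (c (k + 1))) x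
      have h4 : 0 ≤ sm x ((Tr q q' (c 0))⁻¹ * Tr q q' (c k)) := nrm_nonneg _ _
      have h5 : 0 ≤ sm x ((Tr q q' (c k))⁻¹ * Tr q q' (c (k + 1))) := nrm_nonneg _ _
      calc _ ≤ (1 + sm x ((Tr q q' (c 0))⁻¹ * Tr q q' (c k))) *
            (1 + sm x ((Tr q q' (c k))⁻¹ * Tr q q' (c (k + 1)))) := by linarith
        _ ≤ (1 + a) ^ k * (1 + a) := by
          apply mul_le_mul h1 (by linarith) (by linarith)
          positivity
        _ = (1 + a) ^ (k + 1) := by ring
  have hfin := hprod m le_rfl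
  have h6 : (1 + a) ^ m ≤ 1 + ε := by
    calc (1 + a) ^ m ≤ (Real.exp a) ^ m := by
          apply pow_le_pow_left₀ (by linarith)
          rw [add_comm]; exact Real.add_one_le_exp a
      _ = Real.exp (m * a) := by rw [← Real.exp_nat_mul]
      _ ≤ Real.exp (Real.log (1 + ε)) := by
          apply Real.exp_le_exp.2
          rw [ha]
          have : (m : ℝ) * (Real.log (1 + ε) / (m + 1)) = (m / (m + 1)) * Real.log (1 + ε) := by ring
          rw [this]
          have h7 : (m : ℝ) / (m + 1) ≤ 1 := by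
            rw [div_le_one (by positivity)]; linarith
          nlinarith
      _ = 1 + ε := Real.exp_log (by linarith)
  linarith

end Pool.Agent.helper7.WB
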