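import Pool.Agent.helper21.WB.LibB
import Pool.Agent.helper80.WB.H2
import Pool.Agent.helper38.WB.H4

/-!
# MP_7b8095_gt, module R1: close nets give an isomorphism
-/

set_option autoImplicit false
open Matrix MeasureTheory

namespace Pool.Agent.helper21.WB
namespace R1

variable {Γ Γ' : Subgroup GLI} {η D s R₁ : ℝ} {n : ℕ}

/-- relative position of the marked points -/
noncomputable def rel (N : Net Γ η D s R₁ n) (i j : Fin n) (γ : GLI) : GLI := (N.p i)⁻¹ * γ * N.p j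

theorem rel_inG (hΓ : Disc Γ) (N : Net Γ η D s R₁ n) (i j : Fin n) {γ : GLI} (h : γ ∈ Γ) :
    InG (rel N i j γ) := ((N.mem i).inv.mul (hΓ.inG γ h)).mul (N.mem j)

theorem rel_mul (N : Net Γ η D s R₁ n) (i j k : Fin n) (a b : GLI) :
    rel N i j a * rel N j k b = rel N i k (a * b) := by
  simp only [rel]; group

theorem rel_inv_mul (N : Net Γ η D s R₁ n) (i j : Fin n) (a b : GLI) :
    (rel N i j a)⁻¹ * rel N i j b = (N.p j)⁻¹ * (a⁻¹ * b) * N.p j := by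
  simp only [rel]; group

theorem rel_mul_inv (N : Net Γ η D s R₁ n) (i j : Fin n) (a b : GLI) :
    rel N i j a * (rel N i j b)⁻¹ = (N.p i)⁻¹ * (a * b⁻¹) * N.p i := by
  simp only [rel]; group

theorem gch_rel (N : Net Γ η D s R₁ n) (i j : Fin n) (γ : GLI) :
    gch (N.p i) (γ * N.p j) = (rel N i j γ).val o o := by
  unfold gch rel; rw [mul_assoc]

theorem cosh_gd {g h : GLI} (hg : InG g) (hh : InG h) : Real.cosh (gd g h) = gch g h := by
  rw [gd_eq hg hh, cosh_hd, gch_eq hg hh]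

theorem gd_nonneg {g h : GLI} (hg : InG g) (hh : InG h) : 0 ≤ gd g h := by
  rw [gd_eq hg hh]; exact hd_nonneg _ _

theorem gd_mul_left (g a b : GLI) : gd (g * a) (g * b) = gd a b := by
  unfold gd gch
  congr 3
  group

theorem entry_le (A : Mat) : |A o o| ≤ fn A := abs_entry_le_fn A o o

/-- `|g_oo - h_oo| ≤ fn (g - h)` -/
theorem oo_le (A B : Mat) : A o o ≤ B o o + fn (A - B) := by
  have h := entry_le (A - B)
  rw [Matrix.sub_apply] at h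
  have := (abs_le.1 h).2
  linarith

theorem fn_sub_comm (A B : Mat) : fn (A - B) = fn (B - A) := by
  rw [← fn_neg, neg_sub]

theorem fn_triangle (A B C : Mat) : fn (A - C) ≤ fn (A - B) + fn (B - C) := by
  have : A - C = (A - B) + (B - C) := by abel
  rw [this]; exact fn_add _ _

theorem fn_le_add (A B : Mat) : fn A ≤ fn B + fn (A - B) := by
  have : A = B + (A - B) := by abel
  calc fn A = fn (B + (A - B)) := by rw [← this]
    _ ≤ _ := fn_add _ _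

/-- size of the relative positions -/
theorem fn_rel_le (hΓ : Disc Γ) (N : Net Γ η D s R₁ n) (i j : Fin n) {γ : GLI} (h : γ ∈ Γ)
    (hd : gd (N.p i) (γ * N.p j) ≤ D) : fn (rel N i j γ).val ≤ Real.sqrt (1 + 4 * Real.cosh D ^ 2) := by
  have hG := rel_inG hΓ N i j h
  have hg2 : InG (γ * N.p j) := (hΓ.inG γ h).mul (N.mem j)
  have h0 := gd_nonneg (N.mem i) hg2
  have h1 : (rel N i j γ).val o o ≤ Real.cosh D := by
    rw [← gch_rel, ← cosh_gd (N.mem i) hg2]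
    exact Real.cosh_le_cosh.2 (by rw [abs_of_nonneg h0, abs_of_nonneg (h0.trans hd)]; exact hd)
  have h2 : 0 < (rel N i j γ).val o o := hG.2
  apply Real.le_sqrt_of_sq_le
  rw [fn_sq_of_inG hG]
  have : (rel N i j γ).val o o ^ 2 ≤ Real.cosh D ^ 2 := pow_le_pow_left₀ h2.le h1 2
  linarith

theorem sm_frame {g : GLI} (hg : InG g) (γ : GLI) :
    sm (act g 0) γ = fn ((g⁻¹ * γ * g).val - 1) := by
  unfold sm
  rw [nrm_act hg]
  congr 1
  rw [Units.val_mul, Units.val_mul, mul_sub, sub_mul, mul_one, ← Units.val_mul g⁻¹ g, inv_mul_cancel,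
    Units.val_one]

/-- elements of the group with close relative positions are equal -/
theorem uniq (hΓ : Disc Γ) (hR : 0 ≤ R₁) (N : Net Γ η D s R₁ n) (i j : Fin n) {a b : GLI} (ha : a ∈ Γ)
    (hb : b ∈ Γ) {K r : ℝ} (hK : fn (rel N i j b).val ≤ K) 
    (hr : fn ((rel N i j a).val - (rel N i j b).val) ≤ r)
    (h1 : i ∈ N.good ∨ j ∈ N.good → r * K ≤ Real.cosh R₁ - 1)
    (h2 : ¬ (i ∈ N.good ∨ j ∈ N.good) → r * K < s) : a = b := by
  have hr0 : 0 ≤ r := (fn_nonneg _).trans hr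
  have hGa := rel_inG hΓ N i j ha
  have hGb := rel_inG hΓ N i j hb
  by_contra hne
  -- difference at `j`
  have ej : fn (((rel N i j b)⁻¹ * rel N i j a).val - 1) ≤ r * K := by
    have e : ((rel N i j b)⁻¹ * rel N i j a).val - 1
        = ((rel N i j b)⁻¹ : GLI).val * ((rel N i j a).val - (rel N i j b).val) := by
      rw [Units.val_mul, mul_sub, ← Units.val_mul _ (rel N i j b), inv_mul_cancel, Units.val_one]
    rw [e]
    calc _ ≤ fn ((rel N i j b)⁻¹ : GLI).val * fn ((rel N i j a).val - (rel N i j b).val) := fn_mul _ _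
      _ = fn (rel N i j b).val * fn ((rel N i j a).val - (rel N i j b).val) := by
          rw [fn_inv_of_inG hGb]
      _ ≤ K * r := mul_le_mul hK hr (fn_nonneg _) ((fn_nonneg _).trans hK)
      _ = r * K := mul_comm _ _
  have ei : fn ((rel N i j a * (rel N i j b)⁻¹).val - 1) ≤ r * K := by
    have e : (rel N i j a * (rel N i j b)⁻¹).val - 1
        = ((rel N i j a).val - (rel N i j b).val) * ((rel N i j b)⁻¹ : GLI).val := by
      rw [Units.val_mul, sub_mul, ← Units.val_mul (rel N i j b), mul_inv_cancel, Units.val_one]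
    rw [e]
    calc _ ≤ fn ((rel N i j a).val - (rel N i j b).val) * fn ((rel N i j b)⁻¹ : GLI).val := fn_mul _ _
      _ = fn ((rel N i j a).val - (rel N i j b).val) * fn (rel N i j b).val := by
          rw [fn_inv_of_inG hGb]
      _ ≤ r * K := mul_le_mul hr hK (fn_nonneg _) hr0
  rw [rel_inv_mul] at ej
  rw [rel_mul_inv] at ei
  have hba : b⁻¹ * a ∈ Γ := Γ.mul_mem (Γ.inv_mem hb) ha
  have hab : a * b⁻¹ ∈ Γ := Γ.mul_mem ha (Γ.inv_mem hb)
  have hba1 : b⁻¹ * a ≠ 1 := fun h => hne (inv_mul_eq_one.1 h).symm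
  have hab1 : a * b⁻¹ ≠ 1 := fun h => hne (mul_inv_eq_one.1 h)
  -- thickness
  have thick : ∀ k : Fin n, k ∈ N.good → ∀ γ ∈ Γ, γ ≠ 1 →
      Real.cosh R₁ - 1 < fn (((N.p k)⁻¹ * γ * N.p k).val - 1) := by
    intro k hk γ hγ hγ1
    have h3 := N.thick k hk γ hγ hγ1
    have hG2 : InG (γ * N.p k) := (hΓ.inG γ hγ).mul (N.mem k)
    have h4 : Real.cosh R₁ < gch (N.p k) (γ * N.p k) := by
      rw [← cosh_gd (N.mem k) hG2]
      refine Real.cosh_lt_cosh.2 ?_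
      rw [abs_of_nonneg hR, abs_of_nonneg (hR.trans h3.le)]; exact h3
    have h5 := oo_le ((N.p k)⁻¹ * γ * N.p k).val 1
    have h6 : gch (N.p k) (γ * N.p k) = ((N.p k)⁻¹ * γ * N.p k).val o o := by
      unfold gch; rw [mul_assoc]
    rw [Matrix.one_apply_eq] at h5
    linarith
  by_cases hg : i ∈ N.good ∨ j ∈ N.good
  · have h3 := h1 hg
    rcases hg with hg | hg
    · have := thick i hg _ hab hab1
      linarith
    · have := thick j hg _ hba hba1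
      linarith
  · have h3 := h2 hg
    have h4 := N.sep j _ hba hba1
    rw [sm_frame (N.mem j)] at h4
    linarith

/-- precision of the matching of `(i,j)` -/
noncomputable def err (S : Finset (Fin n)) (ρ ρb : ℝ) (i j : Fin n) : ℝ :=
  if i ∈ S ∧ j ∈ S then ρ else ρb

theorem err_le (S : Finset (Fin n)) {ρ ρb : ℝ} (h : ρb ≤ ρ) (i j : Fin n) : err S ρ ρb i j ≤ ρ := by
  unfold err; split_ifs
  · exact le_rfl
  · exact h

/-- the standing assumptions on the constants -/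
structure Cst (D s R₁ ρ ρb K : ℝ) : Prop where
  D0 : 0 < D
  R0 : 0 ≤ R₁
  ρb0 : 0 ≤ ρb
  bρ : ρb ≤ ρ
  ρ1 : ρ ≤ 1
  K1 : Real.sqrt (1 + 4 * Real.cosh D ^ 2) + 1 ≤ K
  h1 : (2 * K + 1) * ρ * K ≤ Real.cosh R₁ - 1
  h2 : (2 * K + 1) * ρb * K < s

theorem Cst.K0 {D s R₁ ρ ρb K : ℝ} (h : Cst D s R₁ ρ ρb K) : 1 ≤ K := by
  have := h.K1
  have := Real.sqrt_nonneg (1 + 4 * Real.cosh D ^ 2)
  linarith

/-- the matching function of close nets -/
theorem exists_match {N : Net Γ η D s R₁ n} {N' : Net Γ' η D s R₁ n} {ρ ρb : ℝ} (hb : ρb ≤ ρ)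
    (h : CloseTo N N' ρ ρb) : ∃ m : Fin n → Fin n → Γ → Γ', ∀ i j (γ : Γ),
      gd (N.p i) (γ.1 * N.p j) ≤ D →
      fn ((rel N i j γ.1).val - (rel N' i j (m i j γ).1).val) ≤ err N.good ρ ρb i j := by
  have key : ∀ i j (γ : Γ), ∃ γ' : Γ', gd (N.p i) (γ.1 * N.p j) ≤ D →
      fn ((rel N i j γ.1).val - (rel N' i j γ'.1).val) ≤ err N.good ρ ρb i j := by
    intro i j γ
    by_cases hd : gd (N.p i) (γ.1 * N.p j) ≤ D
    · obtain ⟨γ', hγ', h3⟩ := h.2 i j γ.1 γ.2 hd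
      refine ⟨⟨γ', hγ'⟩, fun _ => ?_⟩
      unfold err
      rcases h3 with h3 | ⟨hi, hj, h3⟩
      · split_ifs
        · exact h3.trans hb
        · exact h3
      · rw [if_pos ⟨hi, hj⟩]; exact h3
    · exact ⟨1, fun h => absurd h hd⟩
  choose m hm using key
  exact ⟨m, hm⟩

/-- norms of matched elements -/
theorem fn_match_le (hΓ : Disc Γ) {N : Net Γ η D s R₁ n} {N' : Net Γ' η D s R₁ n} {ρ ρb K : ℝ}
    (hc : Cst D s R₁ ρ ρb K) {i j : Fin n} {γ γ' : GLI} (hγ : γ ∈ Γ) (hd : gd (N.p i) (γ * N.p j) ≤ D)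
    (h : fn ((rel N i j γ).val - (rel N' i j γ').val) ≤ err N.good ρ ρb i j) :
    fn (rel N' i j γ').val ≤ K := by
  have h1 := fn_le_add (rel N' i j γ').val (rel N i j γ).val
  rw [fn_sub_comm] at h1
  have h2 := fn_rel_le hΓ N i j hγ hd
  have h3 := err_le N.good hc.bρ i j
  linarith [hc.ρ1, hc.K1]

/-- the matching is a cocycle -/
theorem match_mul (hΓ : Disc Γ) (hΓ' : Disc Γ') {N : Net Γ η D s R₁ n} {N' : Net Γ' η D s R₁ n}
    {ρ ρb K : ℝ} (hc : Cst D s R₁ ρ ρb K) (hgood : N.good = N'.good) {m : Fin n → Fin n → Γ → Γ'}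
    (hm : ∀ i j (γ : Γ), gd (N.p i) (γ.1 * N.p j) ≤ D →
      fn ((rel N i j γ.1).val - (rel N' i j (m i j γ).1).val) ≤ err N.good ρ ρb i j)
    {i j k : Fin n} {a b : Γ} (ha : gd (N.p i) (a.1 * N.p j) ≤ D) (hb : gd (N.p j) (b.1 * N.p k) ≤ D)
    (hab : gd (N.p i) ((a * b : Γ).1 * N.p k) ≤ D) : m i j a * m j k b = m i k (a * b) := by
  have hρ0 : 0 ≤ ρ := hc.ρb0.trans hc.bρ
  have hK0 := hc.K0
  have e1 := hm i j a ha
  have e2 := hm j k b hb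
  have e3 := hm i k (a * b) hab
  have k1 : fn (rel N i j a.1).val ≤ K := by
    have := fn_rel_le hΓ N i j a.2 ha; linarith [hc.K1]
  have k2 := fn_match_le hΓ hc b.2 hb e2
  have k3 := fn_match_le hΓ hc (a * b).2 hab e3
  -- error of the product in terms of a common bound `e`
  have main : ∀ e : ℝ, 0 ≤ e → err N.good ρ ρb i j ≤ e → err N.good ρ ρb j k ≤ e →
      err N.good ρ ρb i k ≤ e →
      fn ((rel N' i k ((m i j a).1 * (m j k b).1)).val - (rel N' i k (m i k (a * b)).1).val)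
        ≤ (2 * K + 1) * e := by
    intro e he he1 he2 he3
    have s1 : (rel N' i k ((m i j a).1 * (m j k b).1)).val - (rel N' i k (m i k (a * b)).1).val
        = ((rel N i k (a * b : Γ).1).val - (rel N' i k (m i k (a * b)).1).val)
          - ((rel N i j a.1).val * ((rel N j k b.1).val - (rel N' j k (m j k b).1).val)
            + ((rel N i j a.1).val - (rel N' i j (m i j a).1).val) * (rel N' j k (m j k b).1).val) := by
      rw [← rel_mul N' i j k, Subgroup.coe_mul, ← rel_mul N i j k, Units.val_mul, Units.val_mul]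
      noncomm_ring
    rw [s1]
    refine (fn_sub _ _).trans ?_
    refine (add_le_add (e3.trans he3) (fn_add _ _)).trans ?_
    have t1 : fn ((rel N i j a.1).val * ((rel N j k b.1).val - (rel N' j k (m j k b).1).val)) ≤ K * e :=
      (fn_mul _ _).trans (mul_le_mul k1 (e2.trans he2) (fn_nonneg _) (by linarith))
    have t2 : fn (((rel N i j a.1).val - (rel N' i j (m i j a).1).val) * (rel N' j k (m j k b).1).val)
        ≤ e * K := (fn_mul _ _).trans (mul_le_mul (e1.trans he1) k2 (fn_nonneg _) he)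
    linarith
  apply Subtype.ext
  show (m i j a).1 * (m j k b).1 = (m i k (a * b)).1
  by_cases hg : i ∈ N'.good ∨ k ∈ N'.good
  · refine uniq hΓ' hc.R0 N' i k (Γ'.mul_mem (m i j a).2 (m j k b).2) (m i k (a * b)).2 k3
      (main ρ hρ0 (err_le _ hc.bρ _ _) (err_le _ hc.bρ _ _) (err_le _ hc.bρ _ _)) (fun _ => hc.h1)
      (fun h => absurd hg h)
  · have hi : i ∉ N.good := fun h => hg (Or.inl (hgood ▸ h))
    have hk : k ∉ N.good := fun h => hg (Or.inr (hgood ▸ h))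
    refine uniq hΓ' hc.R0 N' i k (Γ'.mul_mem (m i j a).2 (m j k b).2) (m i k (a * b)).2 k3
      (main ρb hc.ρb0 ?_ ?_ ?_) (fun h => absurd h hg) (fun _ => hc.h2)
    · unfold err; rw [if_neg (fun h => hi h.1)]
    · unfold err; rw [if_neg (fun h => hk h.2)]
    · unfold err; rw [if_neg (fun h => hi h.1)]


/-- The deep part is invariant. -/
theorem out_of_notDeep (hΓ : Disc Γ) {Ξ : Set (I → ℝ)} (hinv : ∀ γ ∈ Γ, ∀ ξ ∈ Ξ, γ.val *ᵥ ξ ∈ Ξ)
    (hdeep : ∀ y, y ∈ Deep Γ η ↔ ∃ ξ ∈ Ξ, hb ξ y < 1) {g : GLI} (hg : g ∈ Γ) {y : X}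
    (hy : y ∉ Deep Γ η) : act g y ∈ Out Ξ := by
  intro ξ hξ
  by_contra h
  push Not at h
  apply hy
  rw [hdeep]
  refine ⟨(g⁻¹ : GLI).val *ᵥ ξ, hinv _ (Γ.inv_mem hg) ξ hξ, ?_⟩
  have hgG := hΓ.inG g hg
  have e : hb ((g⁻¹ : GLI).val *ᵥ ξ) (act g⁻¹ (act g y)) = hb ξ (act g y) := by
    unfold hb; rw [lift_act hgG.inv, bl_mulVec hgG.inv.1]
  rw [act_inv_act hgG] at e
  rw [e]; exact h

/-- The homomorphism attached to close nets. -/
theorem build (hΓ : Disc Γ) (hΓ' : Disc Γ') {Ξ : Set (I → ℝ)} (hΞ : Horo Ξ)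
    (hinv : ∀ γ ∈ Γ, ∀ ξ ∈ Ξ, γ.val *ᵥ ξ ∈ Ξ) (hdeep : ∀ y, y ∈ Deep Γ η ↔ ∃ ξ ∈ Ξ, hb ξ y < 1)
    (N : Net Γ η D s R₁ n) (N' : Net Γ' η D s R₁ n) {ρ ρb K : ℝ} (hc : Cst D s R₁ ρ ρb K)
    (hcl : CloseTo N N' ρ ρb) (i₀ : Fin n) :
    ∃ (φ : Γ →* Γ') (w : Fin n → Γ'), ∀ i j (γ : Γ), gd (N.p i) (γ.1 * N.p j) ≤ 3 / 4 * D →
      fn ((rel N i j γ.1).val - (rel N' i j ((w i)⁻¹ * φ γ * w j : Γ').1).val)
        ≤ err N.good ρ ρb i j := by
  have hD34 : 3 / 4 * D ≤ D := by linarith [hc.D0]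
  have hD340 : 0 < 3 / 4 * D := by linarith [hc.D0]
  obtain ⟨m, hm⟩ := exists_match hc.bρ hcl
  let P : Type := Γ × Fin n
  let π : P → X := fun p => act (p.1.1 * N.p p.2) 0
  have hfr : ∀ p : P, InG (p.1.1 * N.p p.2) := fun p => (hΓ.inG _ p.1.2).mul (N.mem p.2)
  have hπd : ∀ p q : P, hd (π p) (π q) = gd (N.p p.2) ((p.1⁻¹ * q.1 : Γ).1 * N.p q.2) := by
    intro p q
    show hd (act (p.1.1 * N.p p.2) 0) (act (q.1.1 * N.p q.2) 0) = _
    rw [← gd_eq (hfr p) (hfr q)]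
    unfold gd gch
    congr 3
    rw [Subgroup.coe_mul, Subgroup.coe_inv]
    group
  have hout : ∀ p, π p ∈ Out Ξ := by
    intro p
    show act (p.1.1 * N.p p.2) 0 ∈ Out Ξ
    rw [act_mul (N.mem p.2)]
    exact out_of_notDeep hΓ hinv hdeep p.1.2 (N.out p.2)
  have hdense : ∀ x ∈ Out Ξ, ∃ p, hd x (π p) ≤ D / 4 := by
    intro x hx
    have hx' : x ∉ Deep Γ η := by
      rw [hdeep]
      rintro ⟨ξ, hξ, h⟩
      exact absurd (hx ξ hξ) (not_le.2 h)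
    obtain ⟨i, γ, hγ, h⟩ := N.dense x hx'
    refine ⟨(⟨γ, hγ⟩, i), h.trans ?_⟩
    have := hc.D0
    linarith
  let c : P → P → Γ' := fun p q => m p.2 q.2 (p.1⁻¹ * q.1)
  have hcoc : ∀ p q r, hd (π p) (π q) ≤ D → hd (π q) (π r) ≤ D → hd (π p) (π r) ≤ D →
      c p q * c q r = c p r := by
    intro p q r h1 h2 h3
    rw [hπd] at h1 h2 h3
    have e : (p.1⁻¹ * q.1) * (q.1⁻¹ * r.1) = p.1⁻¹ * r.1 := by group
    have := match_mul hΓ hΓ' hc hcl.1 hm h1 h2 (by rw [e]; exact h3)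
    show m p.2 q.2 (p.1⁻¹ * q.1) * m q.2 r.2 (q.1⁻¹ * r.1) = m p.2 r.2 (p.1⁻¹ * r.1)
    rw [this, e]
  obtain ⟨u, hu⟩ := coboundary hΞ hc.D0 π hout hdense c hcoc
  -- equivariance
  let f : Γ → P → Γ' := fun g p => u (g * p.1, p.2) * (u p)⁻¹
  have hf : ∀ g p q, f g p = f g q := by
    intro g p q
    refine chain_const hΞ hD340 π hout (fun x hx => ?_) (f g) ?_ p q
    · have hx' : x ∉ Deep Γ η := by
        rw [hdeep]
        rintro ⟨ξ, hξ, h⟩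
        exact absurd (hx ξ hξ) (not_le.2 h)
      obtain ⟨i, γ, hγ, h⟩ := N.dense x hx'
      refine ⟨(⟨γ, hγ⟩, i), h.trans ?_⟩
      have := hc.D0
      linarith
    intro p q hpq
    have h1 := hu p q hpq
    have hpq' : hd (π (g * p.1, p.2)) (π (g * q.1, q.2)) ≤ 3 / 4 * D := by
      rw [hπd] at hpq ⊢
      have e : ((g * p.1)⁻¹ * (g * q.1) : Γ) = p.1⁻¹ * q.1 := by group
      show gd (N.p p.2) (((g * p.1)⁻¹ * (g * q.1) : Γ).1 * N.p q.2) ≤ 3 / 4 * D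
      rw [e]; exact hpq
    have h2 := hu _ _ hpq'
    have h3 : c (g * p.1, p.2) (g * q.1, q.2) = c p q := by
      have e : ((g * p.1)⁻¹ * (g * q.1) : Γ) = p.1⁻¹ * q.1 := by group
      show m p.2 q.2 ((g * p.1)⁻¹ * (g * q.1)) = m p.2 q.2 (p.1⁻¹ * q.1)
      rw [e]
    rw [h3, h1] at h2
    show u (g * p.1, p.2) * (u p)⁻¹ = u (g * q.1, q.2) * (u q)⁻¹
    have h4 : u q = u p * ((u (g * p.1, p.2))⁻¹ * u (g * q.1, q.2)) := by
      rw [← h2]; group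
    rw [h4]; group
  have hfu : ∀ g (p : P), u (g * p.1, p.2) = f g (1, i₀) * u p := by
    intro g p
    rw [hf g (1, i₀) p]
    show _ = u (g * p.1, p.2) * (u p)⁻¹ * u p
    group
  let φ : Γ →* Γ' :=
    { toFun := fun g => f g (1, i₀)
      map_one' := by
        show u (1 * 1, i₀) * (u (1, i₀))⁻¹ = 1
        rw [one_mul, mul_inv_cancel]
      map_mul' := by
        intro a b
        have h1 := hfu (a * b) (1, i₀)
        have h2 := hfu a (b, i₀)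
        have h3 := hfu b (1, i₀)
        simp only [mul_one] at h1 h2 h3
        rw [h2, h3] at h1
        have : f a (1, i₀) * f b (1, i₀) * u (1, i₀) = f (a * b) (1, i₀) * u (1, i₀) := by
          rw [← h1, mul_assoc]
        exact (mul_right_cancel this).symm }
  refine ⟨φ, fun i => u (1, i), ?_⟩
  intro i j γ hγ
  have h1 : hd (π (1, i)) (π (γ, j)) ≤ 3 / 4 * D := by
    rw [hπd]
    show gd (N.p i) (((1:Γ)⁻¹ * γ : Γ).1 * N.p j) ≤ 3 / 4 * D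
    rw [inv_one, one_mul]; exact hγ
  have h2 := hu _ _ h1
  have h3 : c (1, i) (γ, j) = m i j γ := by
    show m i j (1⁻¹ * γ) = m i j γ
    rw [inv_one, one_mul]
  have h4 := hfu γ (1, j)
  simp only [mul_one] at h4
  have h5 : (u (1, i))⁻¹ * φ γ * u (1, j) = m i j γ := by
    rw [← h3, h2, h4]
    show (u (1, i))⁻¹ * f γ (1, i₀) * u (1, j) = (u (1, i))⁻¹ * (f γ (1, i₀) * u (1, j))
    rw [mul_assoc]
  show fn ((rel N i j γ.1).val - (rel N' i j ((u (1, i))⁻¹ * φ γ * u (1, j) : Γ').1).val) ≤ _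
  rw [h5]
  exact hm i j γ (hγ.trans hD34)


/-- `chain_const` for the orbits of a net -/
theorem chain_net (hΓ : Disc Γ) {Ξ : Set (I → ℝ)} (hΞ : Horo Ξ)
    (hinv : ∀ γ ∈ Γ, ∀ ξ ∈ Ξ, γ.val *ᵥ ξ ∈ Ξ) (hdeep : ∀ y, y ∈ Deep Γ η ↔ ∃ ξ ∈ Ξ, hb ξ y < 1)
    (N : Net Γ η D s R₁ n) (hD : 0 < D) {S : Type} (f : Γ × Fin n → S)
    (hf : ∀ p q : Γ × Fin n, gd (N.p p.2) ((p.1⁻¹ * q.1 : Γ).1 * N.p q.2) ≤ D / 2 → f p = f q)
    (p q : Γ × Fin n) : f p = f q := by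
  let π : Γ × Fin n → X := fun p => act (p.1.1 * N.p p.2) 0
  have hfr : ∀ p : Γ × Fin n, InG (p.1.1 * N.p p.2) := fun p => (hΓ.inG _ p.1.2).mul (N.mem p.2)
  have hπd : ∀ p q : Γ × Fin n, hd (π p) (π q) = gd (N.p p.2) ((p.1⁻¹ * q.1 : Γ).1 * N.p q.2) := by
    intro p q
    show hd (act (p.1.1 * N.p p.2) 0) (act (q.1.1 * N.p q.2) 0) = _
    rw [← gd_eq (hfr p) (hfr q)]
    unfold gd gch
    congr 3
    rw [Subgroup.coe_mul, Subgroup.coe_inv]
    group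
  refine chain_const hΞ (half_pos hD) π ?_ ?_ f ?_ p q
  · intro p
    show act (p.1.1 * N.p p.2) 0 ∈ Out Ξ
    rw [act_mul (N.mem p.2)]
    exact out_of_notDeep hΓ hinv hdeep p.1.2 (N.out p.2)
  · intro x hx
    have hx' : x ∉ Deep Γ η := by
      rw [hdeep]
      rintro ⟨ξ, hξ, h⟩
      exact absurd (hx ξ hξ) (not_le.2 h)
    obtain ⟨i, γ, hγ, h⟩ := N.dense x hx'
    refine ⟨(⟨γ, hγ⟩, i), h.trans ?_⟩
    linarith
  · intro p q hpq
    rw [hπd] at hpq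
    exact hf p q hpq

/-- two matches of the same element agree -/
theorem uniq2 (hΓ : Disc Γ) (N : Net Γ η D s R₁ n) {ρ ρb K : ℝ} (hc : Cst D s R₁ ρ ρb K) (i j : Fin n)
    {a b : GLI} (ha : a ∈ Γ) (hb : b ∈ Γ) (hK : fn (rel N i j b).val ≤ K)
    (h : fn ((rel N i j a).val - (rel N i j b).val) ≤ 2 * err N.good ρ ρb i j) : a = b := by
  have hρ0 : 0 ≤ ρ := hc.ρb0.trans hc.bρ
  have hK0 := hc.K0
  refine uniq hΓ hc.R0 N i j ha hb hK h ?_ ?_
  · intro _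
    have h1 := err_le N.good hc.bρ i j
    calc 2 * err N.good ρ ρb i j * K ≤ 2 * ρ * K := by gcongr
      _ ≤ (2 * K + 1) * ρ * K := by
          have : 2 * ρ * K ≤ (2 * K + 1) * (ρ * K) := by
            have : 0 ≤ ρ * K := by positivity
            nlinarith
          linarith
      _ ≤ _ := hc.h1
  · intro hg
    have hi : i ∉ N.good := fun h => hg (Or.inl h)
    have e : err N.good ρ ρb i j = ρb := by unfold err; rw [if_neg (fun h => hi h.1)]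
    rw [e]
    have hb0 := hc.ρb0
    calc 2 * ρb * K ≤ (2 * K + 1) * ρb * K := by
          have : 2 * ρb * K ≤ (2 * K + 1) * (ρb * K) := by
            have : 0 ≤ ρb * K := by positivity
            nlinarith
          linarith
      _ < s := hc.h2

/-- matched elements of size at most `D/2` have size at most `3D/4` -/
theorem gd_match (hΓ : Disc Γ) (hΓ' : Disc Γ') {N : Net Γ η D s R₁ n} {N' : Net Γ' η D s R₁ n}
    {ρ : ℝ} (hD : 0 < D) (hρ : Real.cosh (D / 2) + ρ ≤ Real.cosh (3 / 4 * D)) {i j : Fin n} {γ γ' : GLI}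
    (hγ : γ ∈ Γ) (hγ' : γ' ∈ Γ') (hd : gd (N.p i) (γ * N.p j) ≤ D / 2)
    (h : fn ((rel N i j γ).val - (rel N' i j γ').val) ≤ ρ) :
    gd (N'.p i) (γ' * N'.p j) ≤ 3 / 4 * D := by
  have g1 : InG (γ * N.p j) := (hΓ.inG γ hγ).mul (N.mem j)
  have g2 : InG (γ' * N'.p j) := (hΓ'.inG γ' hγ').mul (N'.mem j)
  have h1 := cosh_gd (N.mem i) g1
  have h2 := cosh_gd (N'.mem i) g2
  have n1 := gd_nonneg (N.mem i) g1
  have n2 := gd_nonneg (N'.mem i) g2
  rw [gch_rel] at h1 h2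
  have h3 := oo_le (rel N' i j γ').val (rel N i j γ).val
  rw [fn_sub_comm] at h3
  have h4 : Real.cosh (gd (N.p i) (γ * N.p j)) ≤ Real.cosh (D / 2) := by
    refine Real.cosh_le_cosh.2 ?_
    rw [abs_of_nonneg n1, abs_of_nonneg (by linarith)]; exact hd
  have h5 : Real.cosh (gd (N'.p i) (γ' * N'.p j)) ≤ Real.cosh (3 / 4 * D) := by
    rw [h2]; linarith
  have h6 := Real.cosh_le_cosh.1 h5
  rw [abs_of_nonneg n2, abs_of_nonneg (by linarith)] at h6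
  exact h6

/-- one direction of the composition -/
theorem comp_match (hΓ : Disc Γ) (hΓ' : Disc Γ') {N : Net Γ η D s R₁ n} {N' : Net Γ' η D s R₁ n}
    {ρ ρb K : ℝ} (hc : Cst D s R₁ ρ ρb K) (hgood : N.good = N'.good)
    (hρ : Real.cosh (D / 2) + ρ ≤ Real.cosh (3 / 4 * D)) {φ : Γ →* Γ'} {w : Fin n → Γ'}
    (h1 : ∀ i j (γ : Γ), gd (N.p i) (γ.1 * N.p j) ≤ 3 / 4 * D →
      fn ((rel N i j γ.1).val - (rel N' i j ((w i)⁻¹ * φ γ * w j : Γ').1).val) ≤ err N.good ρ ρb i j)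
    {ψ : Γ' →* Γ} {v : Fin n → Γ}
    (h2 : ∀ i j (γ : Γ'), gd (N'.p i) (γ.1 * N'.p j) ≤ 3 / 4 * D →
      fn ((rel N' i j γ.1).val - (rel N i j ((v i)⁻¹ * ψ γ * v j : Γ).1).val) ≤ err N'.good ρ ρb i j)
    (i j : Fin n) (γ : Γ) (hγ : gd (N.p i) (γ.1 * N.p j) ≤ D / 2) :
    γ = (v i)⁻¹ * ψ ((w i)⁻¹ * φ γ * w j) * v j := by
  have hD := hc.D0
  have hγD : gd (N.p i) (γ.1 * N.p j) ≤ D := hγ.trans (by linarith)
  have e1 := h1 i j γ (hγ.trans (by linarith))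
  have e0 := e1.trans (err_le N.good hc.bρ i j)
  have hd2 := gd_match hΓ hΓ' hD hρ γ.2 (((w i)⁻¹ * φ γ * w j : Γ')).2 hγ e0
  have e2 := h2 i j _ hd2
  rw [← hgood] at e2
  symm
  apply Subtype.ext
  refine uniq2 hΓ N hc i j (Subtype.property _) γ.2 ?_ ?_
  · have := fn_rel_le hΓ N i j γ.2 hγD
    linarith [hc.K1]
  · rw [fn_sub_comm]
    refine (fn_triangle _ (rel N' i j ((w i)⁻¹ * φ γ * w j : Γ').1).val _).trans ?_
    linarith

/-- moving the marked points inside their orbits -/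
noncomputable def move (hΓ : Disc Γ) {Ξ : Set (I → ℝ)} (hinv : ∀ γ ∈ Γ, ∀ ξ ∈ Ξ, γ.val *ᵥ ξ ∈ Ξ)
    (hdeep : ∀ y, y ∈ Deep Γ η ↔ ∃ ξ ∈ Ξ, hb ξ y < 1) (N : Net Γ η D s R₁ n) (w : Fin n → Γ) :
    Net Γ η D s R₁ n where
  p i := (w i).1 * N.p i
  good := N.good
  mem i := (hΓ.inG _ (w i).2).mul (N.mem i)
  out i := by
    rw [act_mul (N.mem i), hdeep]
    rintro ⟨ξ, hξ, h⟩
    exact absurd (out_of_notDeep hΓ hinv hdeep (w i).2 (N.out i) ξ hξ) (not_le.2 h)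
  dense x hx := by
    obtain ⟨i, γ, hγ, h⟩ := N.dense x hx
    refine ⟨i, γ * (w i).1⁻¹, Γ.mul_mem hγ (Γ.inv_mem (w i).2), ?_⟩
    rw [mul_assoc, inv_mul_cancel_left]; exact h
  sep i γ hγ h1 := by
    rw [sm_frame ((hΓ.inG _ (w i).2).mul (N.mem i))]
    have e : ((w i).1 * N.p i)⁻¹ * γ * ((w i).1 * N.p i)
        = (N.p i)⁻¹ * ((w i).1⁻¹ * γ * (w i).1) * N.p i := by group
    rw [e, ← sm_frame (N.mem i)]
    refine N.sep i _ (Γ.mul_mem (Γ.mul_mem (Γ.inv_mem (w i).2) hγ) (w i).2) ?_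
    intro h
    apply h1
    calc γ = (w i).1 * ((w i).1⁻¹ * γ * (w i).1) * (w i).1⁻¹ := by group
      _ = 1 := by rw [h]; group
  thick i hi γ hγ h1 := by
    have e : gd ((w i).1 * N.p i) (γ * ((w i).1 * N.p i))
        = gd (N.p i) (((w i).1⁻¹ * γ * (w i).1) * N.p i) := by
      rw [← gd_mul_left (w i).1⁻¹]
      congr 1
      · group
      · group
    rw [e]
    refine N.thick i hi _ (Γ.mul_mem (Γ.mul_mem (Γ.inv_mem (w i).2) hγ) (w i).2) ?_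
    intro h
    apply h1
    calc γ = (w i).1 * ((w i).1⁻¹ * γ * (w i).1) * (w i).1⁻¹ := by group
      _ = 1 := by rw [h]; group

/-- the isomorphism -/
theorem iso (hΓ : Disc Γ) (hΓ' : Disc Γ') {Ξ : Set (I → ℝ)} (hΞ : Horo Ξ)
    (hinv : ∀ γ ∈ Γ, ∀ ξ ∈ Ξ, γ.val *ᵥ ξ ∈ Ξ) (hdeep : ∀ y, y ∈ Deep Γ η ↔ ∃ ξ ∈ Ξ, hb ξ y < 1)
    {Ξ' : Set (I → ℝ)} (hΞ' : Horo Ξ')
    (hinv' : ∀ γ ∈ Γ', ∀ ξ ∈ Ξ', γ.val *ᵥ ξ ∈ Ξ')
    (hdeep' : ∀ y, y ∈ Deep Γ' η ↔ ∃ ξ ∈ Ξ', hb ξ y < 1)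
    (N : Net Γ η D s R₁ n) (N' : Net Γ' η D s R₁ n) {ρ ρb K : ℝ} (hc : Cst D s R₁ ρ ρb K)
    (hρ : Real.cosh (D / 2) + ρ ≤ Real.cosh (3 / 4 * D))
    (hcl : Close N N' ρ ρb) :
    ∃ (φ : Γ ≃* Γ') (N'' : Net Γ' η D s R₁ n), CloseIso N N'' φ ρ := by
  -- a base point
  have hi₀ : ∃ _ : Fin n, True := by
    obtain ⟨r, -, -, hr, -⟩ := exists_ret hΞ
    have hx' : r 0 ∉ Deep Γ η := by
      rw [hdeep]
      rintro ⟨ξ, hξ, h⟩
      exact absurd (hr 0 ξ hξ) (not_le.2 h)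
    obtain ⟨i, -⟩ := N.dense _ hx'
    exact ⟨i, trivial⟩
  obtain ⟨i₀, -⟩ := hi₀
  have hD := hc.D0
  have hgood := hcl.1.1
  obtain ⟨φ, w, h1⟩ := build hΓ hΓ' hΞ hinv hdeep N N' hc hcl.1 i₀
  obtain ⟨ψ, v, h2⟩ := build hΓ' hΓ hΞ' hinv' hdeep' N' N hc hcl.2 i₀
  have hA := comp_match hΓ hΓ' hc hgood hρ h1 h2
  have hB := comp_match hΓ' hΓ hc hgood.symm hρ h2 h1
  -- injectivity
  have hinj : Function.Injective φ := by
    rw [injective_iff_map_eq_one]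
    intro g hg
    let z : Fin n → Γ := fun i => ψ (w i) * v i
    have hz : ∀ i j (γ : Γ), gd (N.p i) (γ.1 * N.p j) ≤ D / 2 → γ = (z i)⁻¹ * ψ (φ γ) * z j := by
      intro i j γ hγ
      have := hA i j γ hγ
      rw [map_mul, map_mul, map_inv] at this
      calc γ = _ := this
        _ = (z i)⁻¹ * ψ (φ γ) * z j := by simp only [z]; group
    have hconst := chain_net hΓ hΞ hinv hdeep N hD
      (fun p : Γ × Fin n => ψ (φ p.1) * z p.2 * p.1⁻¹) (by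
        intro p q hpq
        have h3 := hz _ _ _ hpq
        rw [map_mul, map_mul, map_inv, map_inv] at h3
        show ψ (φ p.1) * z p.2 * p.1⁻¹ = ψ (φ q.1) * z q.2 * q.1⁻¹
        have h4 : q.1⁻¹ = (z q.2)⁻¹ * (ψ (φ q.1))⁻¹ * ψ (φ p.1) * z p.2 * p.1⁻¹ := by
          have h5 : q.1 = p.1 * ((z p.2)⁻¹ * ((ψ (φ p.1))⁻¹ * ψ (φ q.1)) * z q.2) := by
            rw [← h3]; group
          calc q.1⁻¹ = (p.1 * ((z p.2)⁻¹ * ((ψ (φ p.1))⁻¹ * ψ (φ q.1)) * z q.2))⁻¹ := by rw [← h5]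
            _ = _ := by group
        rw [h4]; group) (g, i₀) (1, i₀)
    have h3 : ψ (φ g) * z i₀ * g⁻¹ = ψ (φ 1) * z i₀ * 1⁻¹ := hconst
    rw [hg, map_one, map_one, map_one, one_mul, inv_one, mul_one] at h3
    have h4 : g⁻¹ = 1 := mul_left_cancel (h3.trans (mul_one _).symm)
    exact inv_eq_one.1 h4
  -- surjectivity
  have hsur : Function.Surjective φ := by
    have hconst := chain_net hΓ' hΞ' hinv' hdeep' N' hD
      (fun p : Γ' × Fin n => (QuotientGroup.mk (p.1 * (w p.2)⁻¹) : Γ' ⧸ φ.range)) (by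
        intro p q hpq
        have h3 := hB _ _ _ hpq
        show (QuotientGroup.mk (p.1 * (w p.2)⁻¹) : Γ' ⧸ φ.range) = QuotientGroup.mk (q.1 * (w q.2)⁻¹)
        rw [QuotientGroup.eq]
        refine ⟨(v p.2)⁻¹ * ψ (p.1⁻¹ * q.1) * v q.2, ?_⟩
        have h4 : (w p.2) * (p.1⁻¹ * q.1) * (w q.2)⁻¹
            = φ ((v p.2)⁻¹ * ψ (p.1⁻¹ * q.1) * v q.2) := by
          conv_lhs => rw [h3]
          group
        rw [← h4]; group)
    intro g'
    have h3 := hconst (g' * w i₀, i₀) (w i₀, i₀)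
    have h4 : (QuotientGroup.mk (g' * w i₀ * (w i₀)⁻¹) : Γ' ⧸ φ.range)
        = QuotientGroup.mk (w i₀ * (w i₀)⁻¹) := h3
    rw [mul_inv_cancel_right, mul_inv_cancel, eq_comm, QuotientGroup.eq, inv_one, one_mul] at h4
    exact h4
  let e : Γ ≃* Γ' := MulEquiv.ofBijective φ ⟨hinj, hsur⟩
  refine ⟨e, move hΓ' hinv' hdeep' N' w, ?_, ?_⟩
  · intro i j γ hγ
    have h3 := (h1 i j γ (hγ.trans (by linarith))).trans (err_le N.good hc.bρ i j)
    have h4 : ((w i).1 * N'.p i)⁻¹ * (e γ).1 * ((w j).1 * N'.p j)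
        = rel N' i j ((w i)⁻¹ * φ γ * w j : Γ').1 := by
      show ((w i).1 * N'.p i)⁻¹ * (φ γ).1 * ((w j).1 * N'.p j) = _
      simp only [rel, Subgroup.coe_mul, Subgroup.coe_inv]
      group
    show fn (((N.p i)⁻¹ * γ.1 * N.p j).val
      - (((w i).1 * N'.p i)⁻¹ * (e γ).1 * ((w j).1 * N'.p j)).val) ≤ ρ
    rw [h4]; exact h3
  · intro i j γ' hγ'
    have hγ2 : gd (N'.p i) (((w i)⁻¹ * γ' * w j : Γ').1 * N'.p j) ≤ D / 2 := by
      have e2 : gd ((w i).1 * N'.p i) (γ'.1 * ((w j).1 * N'.p j))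
          = gd (N'.p i) (((w i)⁻¹ * γ' * w j : Γ').1 * N'.p j) := by
        rw [← gd_mul_left (w i).1⁻¹]
        simp only [Subgroup.coe_mul, Subgroup.coe_inv]
        congr 1
        · group
        · group
      rw [← e2]; exact hγ'
    have h3 := hB i j _ hγ2
    have h4 := (h2 i j _ (hγ2.trans (by linarith))).trans (err_le N'.good hc.bρ i j)
    have h5 : φ ((v i)⁻¹ * ψ ((w i)⁻¹ * γ' * w j) * v j) = γ' := by
      have h6 : γ' = w i * ((w i)⁻¹ * γ' * w j) * (w j)⁻¹ := by group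
      conv_rhs => rw [h6, h3]
      group
    have h7 : e.symm γ' = (v i)⁻¹ * ψ ((w i)⁻¹ * γ' * w j) * v j := by
      rw [MulEquiv.symm_apply_eq]; exact h5.symm
    have h8 : ((w i).1 * N'.p i)⁻¹ * γ'.1 * ((w j).1 * N'.p j)
        = rel N' i j ((w i)⁻¹ * γ' * w j : Γ').1 := by
      simp only [rel, Subgroup.coe_mul, Subgroup.coe_inv]
      group
    show fn ((((w i).1 * N'.p i)⁻¹ * γ'.1 * ((w j).1 * N'.p j)).val
      - ((N.p i)⁻¹ * (e.symm γ').1 * N.p j).val) ≤ ρ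
    rw [h8, h7]; exact h4

/-- [R1] Close nets give an isomorphism, from the description of the deep part (`exists_horo`). -/
theorem close_iso_of (hH : ∃ η₀ : ℝ, 0 < η₀ ∧ ∀ η : ℝ, 0 < η → η ≤ η₀ → ∀ Γ : Subgroup GLI, Disc Γ →
    ∃ Ξ : Set (I → ℝ), Horo Ξ ∧ (∀ γ ∈ Γ, ∀ ξ ∈ Ξ, γ.val *ᵥ ξ ∈ Ξ) ∧
      (∀ y, y ∈ Deep Γ η ↔ ∃ ξ ∈ Ξ, hb ξ y < 1)) :
    ∃ η₀ : ℝ, 0 < η₀ ∧ ∀ η : ℝ, 0 < η → η ≤ η₀ → ∃ D₀ : ℝ, ∀ D : ℝ, D₀ ≤ D →
    ∃ ρ₀ : ℝ, 0 < ρ₀ ∧ ∀ ρ : ℝ, 0 < ρ → ρ ≤ ρ₀ → ∃ cb : ℝ, 0 < cb ∧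
    ∀ (Γ Γ' : Subgroup GLI), Disc Γ → Disc Γ' → ∀ (s : ℝ), 0 < s → s ≤ 1 → ∀ (n : ℕ)
      (N : Net Γ η D s (10 * D) n) (N' : Net Γ' η D s (10 * D) n), Close N N' ρ (cb * s) →
      ∃ (φ : Γ ≃* Γ') (N'' : Net Γ' η D s (10 * D) n), CloseIso N N'' φ ρ := by
  obtain ⟨η₀, hη₀, hH⟩ := hH
  refine ⟨η₀, hη₀, fun η h0 h1 => ⟨1, fun D hD => ?_⟩⟩
  set K : ℝ := Real.sqrt (1 + 4 * Real.cosh D ^ 2) + 1 with hK
  have hK1 : 1 ≤ K := by
    have := Real.sqrt_nonneg (1 + 4 * Real.cosh D ^ 2)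
    linarith
  have hch1 : 0 < Real.cosh (10 * D) - 1 := by
    have : 1 < Real.cosh (10 * D) := Real.one_lt_cosh.2 (by linarith)
    linarith
  have hch2 : 0 < Real.cosh (3 / 4 * D) - Real.cosh (D / 2) := by
    have : Real.cosh (D / 2) < Real.cosh (3 / 4 * D) := by
      refine Real.cosh_lt_cosh.2 ?_
      rw [abs_of_pos (by linarith), abs_of_pos (by linarith)]; linarith
    linarith
  have hM : 0 < (2 * K + 1) * K := by positivity
  refine ⟨min 1 (min ((Real.cosh (10 * D) - 1) / ((2 * K + 1) * K))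
      (Real.cosh (3 / 4 * D) - Real.cosh (D / 2))),
    lt_min one_pos (lt_min (div_pos hch1 hM) hch2), fun ρ hρ0 hρ1 => ?_⟩
  have r1 : ρ ≤ 1 := hρ1.trans (min_le_left _ _)
  have r2 : ρ ≤ (Real.cosh (10 * D) - 1) / ((2 * K + 1) * K) :=
    hρ1.trans ((min_le_right _ _).trans (min_le_left _ _))
  have r3 : ρ ≤ Real.cosh (3 / 4 * D) - Real.cosh (D / 2) :=
    hρ1.trans ((min_le_right _ _).trans (min_le_right _ _))
  refine ⟨min ρ (1 / (2 * ((2 * K + 1) * K))), lt_min hρ0 (by positivity), ?_⟩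
  intro Γ Γ' hΓ hΓ' s hs0 hs1 n N N' hcl
  obtain ⟨Ξ, hΞ, hinv, hdeep⟩ := hH η h0 h1 Γ hΓ
  obtain ⟨Ξ', hΞ', hinv', hdeep'⟩ := hH η h0 h1 Γ' hΓ'
  set cb : ℝ := min ρ (1 / (2 * ((2 * K + 1) * K))) with hcb
  have hcb0 : 0 < cb := lt_min hρ0 (by positivity)
  have c1 : cb ≤ ρ := min_le_left _ _
  have c2 : cb ≤ 1 / (2 * ((2 * K + 1) * K)) := min_le_right _ _
  refine R1.iso hΓ hΓ' hΞ hinv hdeep hΞ' hinv' hdeep' N N' (K := K) ⟨by linarith, by linarith,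
    by positivity, ?_, r1, le_rfl, ?_, ?_⟩ (by linarith) hcl
  · calc cb * s ≤ cb * 1 := by gcongr
      _ ≤ ρ := by linarith
  · rw [le_div_iff₀ hM] at r2
    linarith
  · rw [le_div_iff₀ (by positivity)] at c2
    have : (2 * K + 1) * (cb * s) * K = (cb * (2 * ((2 * K + 1) * K))) * s / 2 := by ring
    rw [this]
    have : (cb * (2 * ((2 * K + 1) * K))) * s ≤ 1 * s := by gcongr
    linarith

end R1

end Pool.Agent.helper21.WB
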