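import Pool.Agent.helper74.WB.CloseIsoBase
import Pool.Agent.helper46.WB.H1

/-!
# MP_7b8095_gt, module R1: close nets give an isomorphism
-/

set_option autoImplicit false
open Matrix MeasureTheory

namespace Pool.Agent.helper21.WB

/-- [R1] Close nets give an isomorphism (after moving the marked points of `N'` inside their orbits). -/
theorem close_iso : ∃ η₀ : ℝ, 0 < η₀ ∧ ∀ η : ℝ, 0 < η → η ≤ η₀ → ∃ D₀ : ℝ, ∀ D : ℝ, D₀ ≤ D →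
    ∃ ρ₀ : ℝ, 0 < ρ₀ ∧ ∀ ρ : ℝ, 0 < ρ → ρ ≤ ρ₀ → ∃ cb : ℝ, 0 < cb ∧
    ∀ (Γ Γ' : Subgroup GLI), Disc Γ → Disc Γ' → ∀ (s : ℝ), 0 < s → s ≤ 1 → ∀ (n : ℕ)
      (N : Net Γ η D s (10 * D) n) (N' : Net Γ' η D s (10 * D) n), Close N N' ρ (cb * s) →
      ∃ (φ : Γ ≃* Γ') (N'' : Net Γ' η D s (10 * D) n), CloseIso N N'' φ ρ := by
  apply R1.close_iso_of
  obtain ⟨η₀, hη₀, hH⟩ := exists_horo
  refine ⟨η₀, hη₀, fun η h0 h1 Γ hΓ => ?_⟩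
  obtain ⟨Ξ, hΞ, hinv, hdeep, -⟩ := hH η h0 h1 Γ hΓ
  exact ⟨Ξ, hΞ, hinv, hdeep⟩

end Pool.Agent.helper21.WB
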